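import Pool.Agent.Helper14.MR.Cake

/-!
# R19: the maximin share is attained

The limit of a maximising sequence of partitions is taken along an ultrafilter; on each edge the
trace of a connected piece is order-connected or has an order-connected complement.
-/

set_option linter.unusedSectionVars false

namespace Pool.Agent.Helper85.MR

open Set MeasureTheory Pool.Agent.Helper14.MR Filter Topology

variable {V : Type} [Fintype V] [DecidableEq V]

/-- the vertex `a` -/
def vtx (a : V) : V → ℝ := seg a a 0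

theorem seg_b {a b : V} (h : a ≠ b) (t : ℝ) : seg a b t b = t := by
  simp [seg, h.symm]

theorem seg_a {a b : V} (h : a ≠ b) (t : ℝ) : seg a b t a = 1 - t := by
  simp [seg, h]

theorem seg_c {a b c : V} (hc : c ≠ a) (hc' : c ≠ b) (t : ℝ) : seg a b t c = 0 := by
  simp [seg, hc, hc']

theorem seg_same (a : V) (t : ℝ) : seg a a t = vtx a := by
  funext c; simp only [seg, vtx]; split_ifs <;> ring

theorem seg_zero (a b : V) : seg a b 0 = vtx a := by
  funext c; simp only [seg, vtx]; split_ifs <;> ring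

theorem seg_one (a b : V) : seg a b 1 = vtx b := by
  funext c; simp only [seg, vtx]; split_ifs <;> ring

theorem seg_nonneg (a b : V) {t : ℝ} (ht : t ∈ Icc (0 : ℝ) 1) (c : V) : 0 ≤ seg a b t c := by
  have h0 := ht.1
  have h1 := ht.2
  simp only [seg]
  split_ifs <;> nlinarith

theorem seg_sum (a b : V) (t : ℝ) : ∑ c, seg a b t c = 1 := by
  simp only [seg, Finset.sum_add_distrib, ← Finset.mul_sum]
  simp

theorem seg_image (a b : V) (s t : ℝ) :
    seg a b '' uIcc s t = segment ℝ (seg a b s) (seg a b t) := by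
  have h : ∀ r, seg a b r = (AffineMap.lineMap (vtx a) (vtx b) : ℝ →ᵃ[ℝ] (V → ℝ)) r := by
    intro r
    funext c
    simp only [AffineMap.lineMap_apply, vtx, seg, vsub_eq_sub, vadd_eq_add, Pi.add_apply,
      Pi.smul_apply, Pi.sub_apply, smul_eq_mul]
    ring
  have h2 : seg a b = (AffineMap.lineMap (vtx a) (vtx b) : ℝ →ᵃ[ℝ] (V → ℝ)) := by
    funext r; rw [h r]
  rw [h2, ← segment_eq_uIcc, image_segment]

/-- a point with support in `{a, b}` -/
theorem eq_seg {a b : V} (hab : a ≠ b) {y : V → ℝ} (h0 : ∀ c, 0 ≤ y c) (h1 : ∑ c, y c = 1)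
    (hs : ∀ c, c ≠ a → c ≠ b → y c = 0) : y = seg a b (y b) ∧ y b ∈ Icc (0 : ℝ) 1 := by
  have hsum : y a + y b = 1 := by
    rw [← h1, ← Finset.sum_pair hab]
    apply Finset.sum_subset (Finset.subset_univ _)
    intro c _ hc
    simp only [Finset.mem_insert, Finset.mem_singleton, not_or] at hc
    exact hs c hc.1 hc.2
  refine ⟨?_, h0 b, by linarith [h0 a]⟩
  funext c
  by_cases hca : c = a
  · subst hca; rw [seg_a hab]; linarith
  by_cases hcb : c = b
  · subst hcb; rw [seg_b hab]
  · rw [seg_c hca hcb]; exact hs c hca hcb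

theorem cake_nonneg {G : SimpleGraph V} {y : V → ℝ} (hy : y ∈ cake G) (c : V) : 0 ≤ y c := by
  obtain ⟨a, b, t, -, ht, rfl⟩ := hy
  exact seg_nonneg a b ht c

theorem cake_sum {G : SimpleGraph V} {y : V → ℝ} (hy : y ∈ cake G) : ∑ c, y c = 1 := by
  obtain ⟨a, b, t, -, -, rfl⟩ := hy
  exact seg_sum a b t

theorem cake_supp {G : SimpleGraph V} {y : V → ℝ} (hy : y ∈ cake G) :
    ∃ a b, IsEdge G a b ∧ ∀ c, c ≠ a → c ≠ b → y c = 0 := by
  obtain ⟨a, b, t, hab, -, rfl⟩ := hy
  exact ⟨a, b, hab, fun c h h' => seg_c h h' t⟩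

theorem cake_eq_seg {G : SimpleGraph V} {a b : V} (hab : G.Adj a b) {y : V → ℝ}
    (hy : y ∈ cake G) (hs : ∀ c, c ≠ a → c ≠ b → y c = 0) :
    y = seg a b (y b) ∧ y b ∈ Icc (0 : ℝ) 1 :=
  eq_seg hab.ne (cake_nonneg hy) (cake_sum hy) hs

/-- the trace of a set on an edge -/
def tr (P : Set (V → ℝ)) (a b : V) : Set ℝ := {t | t ∈ Icc (0 : ℝ) 1 ∧ seg a b t ∈ P}

/-- the trace on each edge is order-connected or has an order-connected complement -/
def TC (G : SimpleGraph V) (P : Set (V → ℝ)) : Prop :=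
  ∀ a b, G.Adj a b → (tr P a b).OrdConnected ∨ (Icc (0 : ℝ) 1 \ tr P a b).OrdConnected

theorem tc_of_preconnected {G : SimpleGraph V} {P : Set (V → ℝ)} (hP : P ⊆ cake G)
    (hc : IsPreconnected P) : TC G P := by
  intro a b hab
  by_contra hcon
  push Not at hcon
  obtain ⟨h1, h2⟩ := hcon
  have hne := hab.ne
  -- three points
  rw [ordConnected_iff] at h2
  push Not at h2
  obtain ⟨s, hs, t, ht, hst, hsub⟩ := h2
  obtain ⟨r, hr, hr'⟩ := not_subset.1 hsub
  have hr01 : r ∈ Icc (0 : ℝ) 1 := ⟨hs.1.1.trans hr.1, hr.2.trans ht.1.2⟩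
  have hrT : r ∈ tr P a b := by
    by_contra hh
    exact hr' ⟨hr01, hh⟩
  have hsr : s < r := lt_of_le_of_ne hr.1 (fun h => hs.2 (h ▸ hrT))
  have hrt : r < t := lt_of_le_of_ne hr.2 (fun h => ht.2 (h ▸ hrT))
  -- the open sets
  let O : Set (V → ℝ) := {y | s < y b ∧ 1 - t < y a}
  let O' : Set (V → ℝ) := {y | y b < s ∨ y a < 1 - t} ∪ ⋃ c : {c : V // c ≠ a ∧ c ≠ b},
    {y | 0 < y c.1}
  have hO : IsOpen O := (isOpen_lt continuous_const (continuous_apply b)).inter
    (isOpen_lt continuous_const (continuous_apply a))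
  have hO' : IsOpen O' := by
    apply IsOpen.union
    · exact (isOpen_lt (continuous_apply b) continuous_const).union
        (isOpen_lt (continuous_apply a) continuous_const)
    · exact isOpen_iUnion fun c => isOpen_lt continuous_const (continuous_apply c.1)
  -- points of `O` in the cake
  have hOe : ∀ y ∈ cake G, y ∈ O → ∀ c, c ≠ a → c ≠ b → y c = 0 := by
    intro y hy hyO
    obtain ⟨a', b', hab', hsupp⟩ := cake_supp hy
    have ha : 0 < y a := lt_of_le_of_lt (by linarith [ht.1.2]) hyO.2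
    have hb : 0 < y b := lt_of_le_of_lt hs.1.1 hyO.1
    have hA : a = a' ∨ a = b' := by
      by_contra hh
      push Not at hh
      exact ha.ne' (hsupp a hh.1 hh.2)
    have hB : b = a' ∨ b = b' := by
      by_contra hh
      push Not at hh
      exact hb.ne' (hsupp b hh.1 hh.2)
    intro c hca hcb
    apply hsupp c
    · rintro rfl
      rcases hA with hA | hA
      · exact hca hA.symm
      · rcases hB with hB | hB
        · exact hcb hB.symm
        · exact hne (hA.trans hB.symm)
    · rintro rfl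
      rcases hA with hA | hA
      · rcases hB with hB | hB
        · exact hne (hA.trans hB.symm)
        · exact hcb hB.symm
      · exact hca hA.symm
  have hcov : P ⊆ O ∪ O' := by
    intro y hy
    by_contra hh
    simp only [mem_union, not_or] at hh
    obtain ⟨hyO, hyO'⟩ := hh
    have hyO'' : ¬ (y b < s ∨ y a < 1 - t) ∧ ∀ c : {c : V // c ≠ a ∧ c ≠ b}, ¬ 0 < y c.1 := by
      constructor
      · intro h
        exact hyO' (Or.inl h)
      · intro c h
        exact hyO' (Or.inr (mem_iUnion.2 ⟨c, h⟩))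
    obtain ⟨h3, h4⟩ := hyO''
    push Not at h3
    have hsupp : ∀ c, c ≠ a → c ≠ b → y c = 0 := by
      intro c hca hcb
      exact le_antisymm (not_lt.1 (h4 ⟨c, hca, hcb⟩)) (cake_nonneg (hP hy) c)
    obtain ⟨he, h01⟩ := cake_eq_seg hab (hP hy) hsupp
    have hya : y a = 1 - y b := by
      have := congrFun he a
      rw [seg_a hne] at this
      exact this
    have hyO3 : y b = s ∨ y b = t := by
      by_contra hh
      push Not at hh
      apply hyO
      refine ⟨lt_of_le_of_ne h3.1 (Ne.symm hh.1), ?_⟩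
      rw [hya]
      have : y b ≤ t := by linarith [h3.2]
      have := lt_of_le_of_ne this hh.2
      linarith
    rcases hyO3 with h | h
    · exact hs.2 ⟨hs.1, by rw [← h, ← he]; exact hy⟩
    · exact ht.2 ⟨ht.1, by rw [← h, ← he]; exact hy⟩
  have hdis : P ∩ (O ∩ O') = ∅ := by
    rw [eq_empty_iff_forall_notMem]
    rintro y ⟨hyP, hyO, hyO'⟩
    have hsupp := hOe y (hP hyP) hyO
    rcases hyO' with h | h
    · rcases h with h | h
      · exact lt_asymm h hyO.1
      · exact lt_asymm h hyO.2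
    · obtain ⟨c, hc⟩ := mem_iUnion.1 h
      exact (ne_of_gt hc) (hsupp c.1 c.2.1 c.2.2)
  have hrO : seg a b r ∈ P ∩ O := by
    refine ⟨hrT.2, ?_, ?_⟩
    · rw [seg_b hne]; exact hsr
    · rw [seg_a hne]; linarith
  have hPO : P ⊆ O := by
    by_contra hh
    obtain ⟨y, hyP, hyO⟩ := not_subset.1 hh
    have hyO' : y ∈ O' := (hcov hyP).resolve_left hyO
    have := hc O O' hO hO' hcov ⟨_, hrO⟩ ⟨y, hyP, hyO'⟩
    rw [hdis] at this
    exact this.ne_empty rfl
  -- the trace is order-connected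
  apply h1
  have him : IsPreconnected ((fun y : V → ℝ => y b) '' P) :=
    hc.image _ (continuous_apply b).continuousOn
  have htr : tr P a b = (fun y : V → ℝ => y b) '' P := by
    ext x
    constructor
    · intro hx
      exact ⟨_, hx.2, seg_b hne x⟩
    · rintro ⟨y, hy, rfl⟩
      obtain ⟨he, h01⟩ := cake_eq_seg hab (hP hy) (hOe y (hP hy) (hPO hy))
      refine ⟨h01, ?_⟩
      show seg a b (y b) ∈ P
      rw [← he]
      exact hy
  rw [htr]
  exact him.ordConnected

/-- the one dimensional local lemma -/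
theorem local_one {T : Set ℝ}
    (hT : T.OrdConnected ∨ (Icc (0 : ℝ) 1 \ T).OrdConnected) (hT1 : T ⊆ Icc 0 1)
    {t : ℝ} (ht : t ∈ T) : ∃ δ > 0, ∀ t' ∈ T, |t' - t| < δ → uIcc t t' ⊆ T := by
  rcases hT with hT | hT
  · exact ⟨1, one_pos, fun t' ht' _ => hT.uIcc_subset ht ht'⟩
  by_cases hg : ∃ g, g ∈ Icc (0 : ℝ) 1 \ T
  · obtain ⟨g, hg⟩ := hg
    have hgt : g ≠ t := fun h => hg.2 (h ▸ ht)
    refine ⟨|g - t|, abs_pos.2 (sub_ne_zero.2 hgt), ?_⟩
    intro t' ht' hd x hx
    by_contra hxT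
    have hx01 : x ∈ Icc (0 : ℝ) 1 := by
      have : uIcc t t' ⊆ Icc (0 : ℝ) 1 := uIcc_subset_Icc (hT1 ht) (hT1 ht')
      exact this hx
    have hxg := hT.uIcc_subset ⟨hx01, hxT⟩ hg
    -- `t` and `t'` are not between `x` and `g`
    have h1 : t ∉ uIcc x g := fun h => (hxg h).2 ht
    have h2 : t' ∉ uIcc x g := fun h => (hxg h).2 ht'
    rw [mem_uIcc] at hx h1 h2
    push Not at h1 h2
    rcases lt_or_gt_of_ne hgt with h | h
    · rw [abs_of_neg (by linarith : g - t < 0)] at hd
      rcases hx with hx | hx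
      · rcases abs_cases (t' - t) with h3 | h3
        · have h4 := h1.1
          have h5 := h1.2
          by_cases hxt : x = t
          · exact hxT (hxt ▸ ht)
          · have : t < x := lt_of_le_of_ne hx.1 (Ne.symm hxt)
            have := h5 h.le
            linarith
        · have h5 := h1.2
          by_cases hxt : x = t
          · exact hxT (hxt ▸ ht)
          · have : t < x := lt_of_le_of_ne hx.1 (Ne.symm hxt)
            have := h5 h.le
            linarith
      · by_cases hxt : x = t'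
        · exact hxT (hxt ▸ ht')
        · have h6 : t' < x := lt_of_le_of_ne hx.1 (Ne.symm hxt)
          have h7 : -(t - g) < t' - t := by
            have := (abs_lt.1 hd).1
            linarith
          have := h2.2 (by linarith)
          linarith
    · rw [abs_of_pos (by linarith : 0 < g - t)] at hd
      rcases hx with hx | hx
      · by_cases hxt : x = t'
        · exact hxT (hxt ▸ ht')
        · have h6 : x < t' := lt_of_le_of_ne hx.2 hxt
          have h7 : t' - t < g - t := (abs_lt.1 hd).2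
          have := h2.1 h6.le
          linarith
      · by_cases hxt : x = t
        · exact hxT (hxt ▸ ht)
        · have h6 : x < t := lt_of_le_of_ne hx.2 hxt
          have := h1.1 h6.le
          linarith
  · push Not at hg
    refine ⟨1, one_pos, fun t' ht' _ x hx => ?_⟩
    have hx01 : x ∈ Icc (0 : ℝ) 1 := by
      have : uIcc t t' ⊆ Icc (0 : ℝ) 1 := uIcc_subset_Icc (hT1 ht) (hT1 ht')
      exact this hx
    by_contra hxT
    exact hg x ⟨hx01, hxT⟩

/-- the straight link -/
def Lk (P : Set (V → ℝ)) (x y : V → ℝ) : Prop := segment ℝ x y ⊆ P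

theorem Lk.symm {P : Set (V → ℝ)} {x y : V → ℝ} (h : Lk P x y) : Lk P y x := by
  unfold Lk at *
  rwa [segment_symm]

theorem Lk.left {P : Set (V → ℝ)} {x y : V → ℝ} (h : Lk P x y) : x ∈ P :=
  h (left_mem_segment ℝ x y)

theorem Lk.right {P : Set (V → ℝ)} {x y : V → ℝ} (h : Lk P x y) : y ∈ P :=
  h (right_mem_segment ℝ x y)

theorem Lk.self {P : Set (V → ℝ)} {x : V → ℝ} (h : x ∈ P) : Lk P x x := by
  unfold Lk
  rw [segment_same]
  simpa using h

theorem Lk.mono {P Q : Set (V → ℝ)} (hPQ : P ⊆ Q) {x y : V → ℝ} (h : Lk P x y) : Lk Q x y :=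
  Subset.trans h hPQ

/-- near a point of `P`, the points of `P` are linked to it -/
theorem local_link {G : SimpleGraph V} {P : Set (V → ℝ)} (hP : P ⊆ cake G) (hT : TC G P)
    {y : V → ℝ} (hy : y ∈ P) : ∀ᶠ y' in 𝓝 y, y' ∈ P → Lk P y y' := by
  have hδ : ∀ a b : V, ∃ δ > 0, (G.Adj a b → y b ∈ tr P a b →
      ∀ t' ∈ tr P a b, |t' - y b| < δ → uIcc (y b) t' ⊆ tr P a b) := by
    intro a b
    by_cases hab : G.Adj a b
    · by_cases hyb : y b ∈ tr P a b
      · obtain ⟨δ, h0, h1⟩ := local_one (hT a b hab) (fun x hx => hx.1) hyb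
        exact ⟨δ, h0, fun _ _ => h1⟩
      · exact ⟨1, one_pos, fun _ h => absurd h hyb⟩
    · exact ⟨1, one_pos, fun h => absurd h hab⟩
  choose δ hδ0 hδ1 using hδ
  have h1 : ∀ᶠ y' : V → ℝ in 𝓝 y, ∀ a b, |y' b - y b| < δ a b := by
    rw [eventually_all]
    intro a
    rw [eventually_all]
    intro b
    have hcont : Tendsto (fun y' : V → ℝ => |y' b - y b|) (𝓝 y) (𝓝 |y b - y b|) := by
      have : Continuous (fun y' : V → ℝ => |y' b - y b|) := by fun_prop
      exact this.tendsto y
    rw [sub_self, abs_zero] at hcont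
    exact hcont.eventually (gt_mem_nhds (hδ0 a b))
  have h2 : ∀ᶠ y' : V → ℝ in 𝓝 y, ∀ c, 0 < y c → 0 < y' c := by
    rw [eventually_all]
    intro c
    by_cases hc : 0 < y c
    · have : Tendsto (fun y' : V → ℝ => y' c) (𝓝 y) (𝓝 (y c)) := (continuous_apply c).tendsto y
      filter_upwards [this.eventually (lt_mem_nhds hc)] with y' hy' _ using hy'
    · exact Eventually.of_forall fun y' h => absurd h hc
  filter_upwards [h1, h2] with y' h1 h2 hy'
  obtain ⟨a, b, hab, hs⟩ := cake_supp (hP hy')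
  have hys : ∀ c, c ≠ a → c ≠ b → y c = 0 := by
    intro c hca hcb
    by_contra hh
    have := h2 c (lt_of_le_of_ne (cake_nonneg (hP hy) c) (Ne.symm hh))
    rw [hs c hca hcb] at this
    exact lt_irrefl _ this
  rcases hab with hab | hab
  · subst hab
    have hv : ∀ z ∈ cake G, (∀ c, c ≠ a → c ≠ a → z c = 0) → z = vtx a := by
      intro z hz hzs
      have hza : z a = 1 := by
        rw [← cake_sum hz]
        symm
        apply Finset.sum_eq_single_of_mem a (Finset.mem_univ _)
        intro c _ hc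
        exact hzs c hc hc
      funext c
      by_cases hc : c = a
      · subst hc; rw [hza]; simp [vtx, seg]
      · rw [hzs c hc hc]; simp [vtx, seg, hc]
    rw [hv y (hP hy) hys, hv y' (hP hy') hs]
    apply Lk.self
    rw [← hv y (hP hy) hys]
    exact hy
  · obtain ⟨he, h01⟩ := cake_eq_seg hab (hP hy) hys
    obtain ⟨he', h01'⟩ := cake_eq_seg hab (hP hy') hs
    have hyT : y b ∈ tr P a b := ⟨h01, by rw [← he]; exact hy⟩
    have hyT' : y' b ∈ tr P a b := ⟨h01', by rw [← he']; exact hy'⟩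
    have := hδ1 a b hab hyT (y' b) hyT' (h1 a b)
    unfold Lk
    rw [he, he', ← seg_image]
    rintro _ ⟨r, hr, rfl⟩
    exact (this hr).2

/-- vertices linked inside `P` -/
def VR (P : Set (V → ℝ)) : V → V → Prop :=
  Relation.ReflTransGen (fun a b => Lk P (vtx a) (vtx b))

/-- the normal form of a connection in `P` -/
def FF (P : Set (V → ℝ)) (x y : V → ℝ) : Prop :=
  Lk P x y ∨ ∃ a b, Lk P x (vtx a) ∧ VR P a b ∧ Lk P (vtx b) y

/-- two links at a point which is not a vertex compose -/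
theorem link_comp {G : SimpleGraph V} {P : Set (V → ℝ)} (hP : P ⊆ cake G) {x y z : V → ℝ}
    (hy : ∀ c, y ≠ vtx c) (h1 : Lk P x y) (h2 : Lk P y z) : Lk P x z := by
  obtain ⟨a, b, t, hab, ht, hyt⟩ := hP h1.right
  have hne : a ≠ b := by
    rintro rfl
    rw [seg_same] at hyt
    exact hy a hyt
  have hadj : G.Adj a b := by
    rcases hab with h | h
    · exact absurd h hne
    · exact h
  have ht0 : 0 < t := by
    refine lt_of_le_of_ne ht.1 (fun h => ?_)
    rw [← h, seg_zero] at hyt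
    exact hy a hyt
  have ht1 : t < 1 := by
    refine lt_of_le_of_ne ht.2 (fun h => ?_)
    rw [h, seg_one] at hyt
    exact hy b hyt
  have hya : 0 < y a := by rw [hyt, seg_a hne]; linarith
  have hyb : 0 < y b := by rw [hyt, seg_b hne]; exact ht0
  have key : ∀ w, Lk P w y → ∀ c, c ≠ a → c ≠ b → w c = 0 := by
    intro w hw
    have hm : (1 / 2 : ℝ) • w + (1 / 2 : ℝ) • y ∈ P := by
      apply hw
      exact ⟨1 / 2, 1 / 2, by norm_num, by norm_num, by norm_num, rfl⟩
    obtain ⟨a', b', -, hs⟩ := cake_supp (hP hm)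
    have hwn := cake_nonneg (hP hw.left)
    have hyn := cake_nonneg (hP hw.right)
    have hval : ∀ c, ((1 / 2 : ℝ) • w + (1 / 2 : ℝ) • y) c = (w c + y c) / 2 := by
      intro c
      simp only [Pi.add_apply, Pi.smul_apply, smul_eq_mul]
      ring
    have hA : a = a' ∨ a = b' := by
      by_contra hh
      push Not at hh
      have := hs a hh.1 hh.2
      rw [hval] at this
      linarith [hwn a]
    have hB : b = a' ∨ b = b' := by
      by_contra hh
      push Not at hh
      have := hs b hh.1 hh.2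
      rw [hval] at this
      linarith [hwn b]
    intro c hca hcb
    have hc : ((1 / 2 : ℝ) • w + (1 / 2 : ℝ) • y) c = 0 := by
      apply hs c
      · rintro rfl
        rcases hA with hA | hA
        · exact hca hA.symm
        · rcases hB with hB | hB
          · exact hcb hB.symm
          · exact hne (hA.trans hB.symm)
      · rintro rfl
        rcases hA with hA | hA
        · rcases hB with hB | hB
          · exact hne (hA.trans hB.symm)
          · exact hcb hB.symm
        · exact hca hA.symm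
    rw [hval] at hc
    have := hwn c
    have := hyn c
    linarith
  have hxs := key x h1
  have hzs := key z h2.symm
  obtain ⟨hex, -⟩ := cake_eq_seg hadj (hP h1.left) hxs
  obtain ⟨hez, -⟩ := cake_eq_seg hadj (hP h2.right) hzs
  unfold Lk at *
  rw [hex, hez, ← seg_image]
  rw [hex, hyt, ← seg_image] at h1
  rw [hez, hyt, ← seg_image] at h2
  rintro _ ⟨r, hr, rfl⟩
  rcases uIcc_subset_uIcc_union_uIcc (b := t) hr with h | h
  · exact h1 ⟨r, h, rfl⟩
  · exact h2 ⟨r, h, rfl⟩

theorem FF.step {G : SimpleGraph V} {P : Set (V → ℝ)} (hP : P ⊆ cake G) {x y z : V → ℝ}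
    (h1 : FF P x y) (h2 : Lk P y z) : FF P x z := by
  by_cases hy : ∃ c, y = vtx c
  · obtain ⟨c, rfl⟩ := hy
    right
    rcases h1 with h1 | ⟨a, b, h3, h4, h5⟩
    · exact ⟨c, c, h1, Relation.ReflTransGen.refl, h2⟩
    · exact ⟨a, c, h3, Relation.ReflTransGen.tail h4 h5, h2⟩
  · push Not at hy
    rcases h1 with h1 | ⟨a, b, h3, h4, h5⟩
    · exact Or.inl (link_comp hP hy h1 h2)
    · exact Or.inr ⟨a, b, h3, h4, link_comp hP hy h5 h2⟩

theorem ff_of_preconnected {G : SimpleGraph V} {P : Set (V → ℝ)} (hP : P ⊆ cake G)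
    (hc : IsPreconnected P) {x y : V → ℝ} (hx : x ∈ P) (hy : y ∈ P) : FF P x y := by
  have hT := tc_of_preconnected hP hc
  have h : Relation.ReflTransGen (Lk P) x y := by
    apply hc.induction₂ (fun x y => Relation.ReflTransGen (Lk P) x y) _ _ _ hx hy
    · intro z hz
      rw [eventually_nhdsWithin_iff]
      filter_upwards [local_link hP hT hz] with w hw hwP
      exact Relation.ReflTransGen.single (hw hwP)
    · intro a b c _ _ _ hab hbc
      exact hab.trans hbc
    · intro a b _ _ hab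
      clear hx
      induction hab with
      | refl => exact Relation.ReflTransGen.refl
      | tail _ h ih => exact (Relation.ReflTransGen.single h.symm).trans (ih h.left)
  clear hy
  induction h with
  | refl => exact Or.inl (Lk.self hx)
  | tail _ h ih => exact ih.step hP h

/-- the limit of a sequence of sets along an ultrafilter -/
def ulim {E : Type} (U : Ultrafilter ℕ) (P : ℕ → Set E) : Set E := {x | ∀ᶠ n in (U : Filter ℕ), x ∈ P n}

theorem mem_ulim {E : Type} {U : Ultrafilter ℕ} {P : ℕ → Set E} {x : E} :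
    x ∈ ulim U P ↔ ∀ᶠ n in (U : Filter ℕ), x ∈ P n := Iff.rfl

theorem notMem_ulim {E : Type} {U : Ultrafilter ℕ} {P : ℕ → Set E} {x : E} :
    x ∉ ulim U P ↔ ∀ᶠ n in (U : Filter ℕ), x ∉ P n := by
  rw [mem_ulim, ← Ultrafilter.eventually_not]

theorem ulim_lk {U : Ultrafilter ℕ} {P : ℕ → Set (V → ℝ)} {x y : V → ℝ}
    (h : ∀ᶠ n in (U : Filter ℕ), Lk (P n) x y) : Lk (ulim U P) x y := by
  intro z hz
  filter_upwards [h] with n hn
  exact hn hz

theorem ulim_vr {U : Ultrafilter ℕ} {P : ℕ → Set (V → ℝ)} {a b : V}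
    (h : ∀ᶠ n in (U : Filter ℕ), VR (P n) a b) : VR (ulim U P) a b := by
  have hD : ∃ D : Set (V × V), ∀ᶠ n in (U : Filter ℕ),
      {p : V × V | Lk (P n) (vtx p.1) (vtx p.2)} = D := by
    rw [← Ultrafilter.eventually_exists_iff]
    exact Eventually.of_forall fun n => ⟨_, rfl⟩
  obtain ⟨D, hD⟩ := hD
  obtain ⟨n, hn1, hn2⟩ := (h.and hD).exists
  refine Relation.ReflTransGen.mono ?_ _ _ hn1
  intro c d hcd
  apply ulim_lk
  filter_upwards [hD] with m hm
  have : (c, d) ∈ D := by rw [← hn2]; exact hcd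
  rw [← hm] at this
  exact this

theorem ulim_ff {U : Ultrafilter ℕ} {P : ℕ → Set (V → ℝ)} {x y : V → ℝ}
    (h : ∀ᶠ n in (U : Filter ℕ), FF (P n) x y) : FF (ulim U P) x y := by
  rcases Ultrafilter.eventually_or.1 h with h | h
  · exact Or.inl (ulim_lk h)
  · rw [Ultrafilter.eventually_exists_iff] at h
    obtain ⟨a, h⟩ := h
    rw [Ultrafilter.eventually_exists_iff] at h
    obtain ⟨b, h⟩ := h
    exact Or.inr ⟨a, b, ulim_lk (h.mono fun n hn => hn.1), ulim_vr (h.mono fun n hn => hn.2.1),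
      ulim_lk (h.mono fun n hn => hn.2.2)⟩

theorem joined_of_lk {P : Set (V → ℝ)} {x y : V → ℝ} (h : Lk P x y) : JoinedIn P x y :=
  JoinedIn.of_segment_subset h

theorem joined_of_vr {P : Set (V → ℝ)} {a b : V} (ha : vtx a ∈ P) (h : VR P a b) :
    JoinedIn P (vtx a) (vtx b) := by
  induction h with
  | refl => exact JoinedIn.refl ha
  | tail _ h ih => exact ih.trans (joined_of_lk h)

theorem joined_of_ff {P : Set (V → ℝ)} {x y : V → ℝ} (h : FF P x y) : JoinedIn P x y := by
  rcases h with h | ⟨a, b, h1, h2, h3⟩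
  · exact joined_of_lk h
  · exact ((joined_of_lk h1).trans (joined_of_vr h1.right h2)).trans (joined_of_lk h3)

theorem preconnected_of_isConn {P : Set (V → ℝ)} (h : IsConn P) : IsPreconnected P := by
  rcases P.eq_empty_or_nonempty with rfl | ⟨x, hx⟩
  · exact isPreconnected_empty
  · exact (IsPathConnected.isConnected ⟨x, hx, fun {y} hy => h x hx y hy⟩).isPreconnected

theorem ulim_isConn {G : SimpleGraph V} {U : Ultrafilter ℕ} {P : ℕ → Set (V → ℝ)}
    (hP : ∀ n, P n ⊆ cake G) (hc : ∀ n, IsConn (P n)) : IsConn (ulim U P) := by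
  intro x hx y hy
  apply joined_of_ff
  apply ulim_ff
  filter_upwards [hx, hy] with n hxn hyn
  exact ff_of_preconnected (hP n) (preconnected_of_isConn (hc n)) hxn hyn

theorem ulim_ord {U : Ultrafilter ℕ} {T : ℕ → Set ℝ}
    (h : ∀ᶠ n in (U : Filter ℕ), (T n).OrdConnected) : (ulim U T).OrdConnected := by
  rw [ordConnected_iff]
  intro x hx y hy _ z hz
  rw [mem_ulim]
  filter_upwards [h, hx, hy] with n hn hxn hyn
  exact hn.out hxn hyn hz

theorem ulim_tr {U : Ultrafilter ℕ} {P : ℕ → Set (V → ℝ)} (a b : V) :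
    tr (ulim U P) a b = ulim U (fun n => tr (P n) a b) := by
  ext t
  rw [mem_ulim]
  constructor
  · rintro ⟨h0, h1⟩
    filter_upwards [mem_ulim.1 h1] with n hn using ⟨h0, hn⟩
  · intro h
    obtain ⟨n, hn⟩ := h.exists
    exact ⟨hn.1, h.mono fun n hn => hn.2⟩

theorem ulim_compl {U : Ultrafilter ℕ} {T : ℕ → Set ℝ} (I : Set ℝ) :
    I \ ulim U T = ulim U (fun n => I \ T n) := by
  ext t
  rw [mem_ulim]
  constructor
  · rintro ⟨h0, h1⟩
    filter_upwards [notMem_ulim.1 h1] with n hn using ⟨h0, hn⟩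
  · intro h
    obtain ⟨n, hn⟩ := h.exists
    exact ⟨hn.1, notMem_ulim.2 (h.mono fun n hn => hn.2)⟩

theorem ulim_tc {G : SimpleGraph V} {U : Ultrafilter ℕ} {P : ℕ → Set (V → ℝ)}
    (h : ∀ n, TC G (P n)) : TC G (ulim U P) := by
  intro a b hab
  have h1 : ∀ᶠ n in (U : Filter ℕ), (tr (P n) a b).OrdConnected ∨
      (Icc (0 : ℝ) 1 \ tr (P n) a b).OrdConnected := Eventually.of_forall fun n => h n a b hab
  rw [ulim_tr]
  rcases Ultrafilter.eventually_or.1 h1 with h1 | h1
  · exact Or.inl (ulim_ord h1)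
  · right
    rw [ulim_compl]
    exact ulim_ord h1

/-- a finite union of intervals indexed by any finite type is a piece -/
theorem isPiece_of {G : SimpleGraph V} {ι : Type} [Finite ι] {A : Set (V → ℝ)}
    (a b : ι → V) (I : ι → Set ℝ)
    (h : ∀ i, IsEdge G (a i) (b i) ∧ (I i).OrdConnected ∧ I i ⊆ Icc 0 1)
    (hA : A = ⋃ i, seg (a i) (b i) '' I i) : IsPiece G A := by
  obtain ⟨k, ⟨e⟩⟩ := Finite.exists_equiv_fin ι
  refine ⟨k, a ∘ e.symm, b ∘ e.symm, I ∘ e.symm, fun i => h _, ?_⟩
  rw [hA]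
  ext x
  simp only [mem_iUnion, Function.comp_apply]
  constructor
  · rintro ⟨i, hi⟩
    exact ⟨e i, by simpa using hi⟩
  · rintro ⟨i, hi⟩
    exact ⟨e.symm i, hi⟩

theorem isPiece_of_tc {G : SimpleGraph V} {P : Set (V → ℝ)} (hP : P ⊆ cake G) (h : TC G P) :
    IsPiece G P := by
  -- the trace is a union of three order-connected sets
  have h3 : ∀ a b, IsEdge G a b → ∃ I : Fin 3 → Set ℝ,
      (∀ i, (I i).OrdConnected ∧ I i ⊆ Icc 0 1) ∧ tr P a b = ⋃ i, I i := by
    intro a b hab
    have hor : (tr P a b).OrdConnected ∨ (Icc (0 : ℝ) 1 \ tr P a b).OrdConnected := by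
      rcases hab with rfl | hab
      · left
        rw [ordConnected_iff]
        intro x hx y hy _ z hz
        refine ⟨⟨hx.1.1.trans hz.1, hz.2.trans hy.1.2⟩, ?_⟩
        have := hx.2
        rw [seg_same] at this ⊢
        exact this
      · exact h a b hab
    rcases hor with h1 | h1
    · exact ⟨fun _ => tr P a b, fun _ => ⟨h1, fun x hx => hx.1⟩, (iUnion_const _).symm⟩
    · -- below the complement, above the complement
      by_cases hg : ∃ g, g ∈ Icc (0 : ℝ) 1 \ tr P a b
      · obtain ⟨g, hg⟩ := hg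
        refine ⟨![tr P a b ∩ Iio g, tr P a b ∩ Ioi g, ∅], ?_, ?_⟩
        · intro i
          fin_cases i
          · refine ⟨?_, fun x hx => hx.1.1⟩
            show (tr P a b ∩ Iio g).OrdConnected
            rw [ordConnected_iff]
            intro x hx y hy _ z hz
            refine ⟨?_, lt_of_le_of_lt hz.2 hy.2⟩
            by_contra hzT
            have hz01 : z ∈ Icc (0 : ℝ) 1 := ⟨hx.1.1.1.trans hz.1, hz.2.trans hy.1.1.2⟩
            exact (h1.out ⟨hz01, hzT⟩ hg ⟨hz.2, hy.2.le⟩).2 hy.1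
          · refine ⟨?_, fun x hx => hx.1.1⟩
            show (tr P a b ∩ Ioi g).OrdConnected
            rw [ordConnected_iff]
            intro x hx y hy _ z hz
            refine ⟨?_, lt_of_lt_of_le hx.2 hz.1⟩
            by_contra hzT
            have hz01 : z ∈ Icc (0 : ℝ) 1 := ⟨hx.1.1.1.trans hz.1, hz.2.trans hy.1.1.2⟩
            exact (h1.out hg ⟨hz01, hzT⟩ ⟨hx.2.le, hz.1⟩).2 hx.1
          · exact ⟨ordConnected_empty, by simp⟩
        · ext x
          simp only [mem_iUnion]
          constructor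
          · intro hx
            rcases lt_trichotomy x g with h2 | h2 | h2
            · exact ⟨0, hx, h2⟩
            · exact absurd (h2 ▸ hx) hg.2
            · exact ⟨1, hx, h2⟩
          · rintro ⟨i, hi⟩
            fin_cases i
            · exact hi.1
            · exact hi.1
            · exact absurd hi (notMem_empty x)
      · push Not at hg
        have : tr P a b = Icc 0 1 := by
          apply Subset.antisymm (fun x hx => hx.1)
          intro x hx
          by_contra hxT
          exact hg x ⟨hx, hxT⟩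
        refine ⟨fun _ => tr P a b, fun _ => ⟨?_, fun x hx => hx.1⟩, (iUnion_const _).symm⟩
        rw [this]
        exact ordConnected_Icc
  have h4 : ∀ p : {p : V × V // IsEdge G p.1 p.2}, ∃ I : Fin 3 → Set ℝ,
      (∀ i, (I i).OrdConnected ∧ I i ⊆ Icc 0 1) ∧ tr P p.1.1 p.1.2 = ⋃ i, I i :=
    fun p => h3 _ _ p.2
  choose I hI1 hI2 using h4
  refine isPiece_of (ι := {p : V × V // IsEdge G p.1 p.2} × Fin 3) (fun i => i.1.1.1)
    (fun i => i.1.1.2) (fun i => I i.1 i.2) (fun i => ⟨i.1.2, hI1 i.1 i.2⟩) ?_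
  ext x
  simp only [mem_iUnion]
  constructor
  · intro hx
    obtain ⟨a, b, t, hab, ht, rfl⟩ := hP hx
    have : t ∈ tr P a b := ⟨ht, hx⟩
    rw [hI2 ⟨(a, b), hab⟩] at this
    obtain ⟨i, hi⟩ := mem_iUnion.1 this
    exact ⟨(⟨(a, b), hab⟩, i), t, hi, rfl⟩
  · rintro ⟨⟨p, i⟩, t, ht, rfl⟩
    have : t ∈ tr P p.1.1 p.1.2 := by
      rw [hI2 p]
      exact mem_iUnion.2 ⟨i, ht⟩
    exact this.2

/-- the symmetric difference of a lower set and its ultrafilter limit is small -/
theorem tendsto_lower {U : Ultrafilter ℕ} {L : ℕ → Set ℝ} (hL : ∀ n, IsLowerSet (L n)) :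
    Tendsto (fun n => volume (Icc (0 : ℝ) 1 ∩ symmDiff (ulim U L) (L n))) (U : Filter ℕ)
      (𝓝 0) := by
  have hLi : IsLowerSet (ulim U L) := by
    intro x y hyx hx
    rw [mem_ulim]
    filter_upwards [mem_ulim.1 hx] with n hn using hL n hyx hn
  rw [ENNReal.tendsto_nhds_zero]
  intro ε hε
  by_cases hεt : ε = ⊤
  · exact Eventually.of_forall fun n => hεt ▸ le_top
  have hr : 0 < ε.toReal := ENNReal.toReal_pos hε.ne' hεt
  obtain ⟨m, hm⟩ := exists_nat_one_div_lt hr
  have hagree : ∀ᶠ n in (U : Filter ℕ), ∀ i : Fin (m + 2),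
      (((i : ℕ) : ℝ) / (m + 1) ∈ L n ↔ ((i : ℕ) : ℝ) / (m + 1) ∈ ulim U L) := by
    rw [eventually_all]
    intro i
    by_cases h : ((i : ℕ) : ℝ) / (m + 1) ∈ ulim U L
    · filter_upwards [mem_ulim.1 h] with n hn
      exact ⟨fun _ => h, fun _ => hn⟩
    · filter_upwards [notMem_ulim.1 h] with n hn
      exact ⟨fun h' => absurd h' hn, fun h' => absurd h' h⟩
  filter_upwards [hagree] with n hn
  refine (Real.volume_le_diam _).trans ?_
  have hmp : (0 : ℝ) < m + 1 := by positivity
  -- distance of two points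
  have key : ∀ x ∈ Icc (0 : ℝ) 1 ∩ symmDiff (ulim U L) (L n),
      ∀ y ∈ Icc (0 : ℝ) 1 ∩ symmDiff (ulim U L) (L n), x ≤ y → y - x ≤ 1 / (m + 1) := by
    rintro x ⟨hx01, hx⟩ y ⟨hy01, hy⟩ hxy
    by_contra hh
    push Not at hh
    -- a grid point
    have h1 : x * (m + 1) ≤ (⌈x * (m + 1)⌉₊ : ℝ) := Nat.le_ceil _
    have h2 : (⌈x * (m + 1)⌉₊ : ℝ) < x * (m + 1) + 1 :=
      Nat.ceil_lt_add_one (mul_nonneg hx01.1 hmp.le)
    set i := ⌈x * (m + 1)⌉₊ with hi
    have h3 : x ≤ (i : ℝ) / (m + 1) := by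
      rw [le_div_iff₀ hmp]; exact h1
    have h4 : (i : ℝ) / (m + 1) < y := by
      have h5 : x + 1 / (m + 1) < y := by linarith
      refine lt_trans ?_ h5
      rw [div_lt_iff₀ hmp]
      have : (x + 1 / (m + 1)) * ((m : ℝ) + 1) = x * (m + 1) + 1 := by
        field_simp
      rw [this]
      exact h2
    have h5 : i < m + 2 := by
      have h6 : (i : ℝ) / (m + 1) < 1 := lt_of_lt_of_le h4 hy01.2
      rw [div_lt_one hmp] at h6
      have : i < m + 1 := by exact_mod_cast h6
      omega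
    have h6 := hn ⟨i, h5⟩
    simp only at h6
    rw [mem_symmDiff] at hx hy
    rcases hx with ⟨hx1, hx2⟩ | ⟨hx1, hx2⟩
    · rcases hy with ⟨hy1, hy2⟩ | ⟨hy1, hy2⟩
      · exact hx2 (hL n h3 (h6.2 (hLi h4.le hy1)))
      · exact hx2 (hL n hxy hy1)
    · rcases hy with ⟨hy1, hy2⟩ | ⟨hy1, hy2⟩
      · exact hx2 (hLi hxy hy1)
      · exact hx2 (hLi h3 (h6.1 (hL n h4.le hy1)))
  apply Metric.ediam_le
  intro x hx y hy
  have hd : dist x y ≤ 1 / (m + 1) := by
    rw [Real.dist_eq]
    rcases le_total x y with h | h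
    · rw [abs_sub_comm, abs_of_nonneg (by linarith)]
      exact key x hx y hy h
    · rw [abs_of_nonneg (by linarith)]
      exact key y hy x hx h
  rw [edist_dist]
  calc ENNReal.ofReal (dist x y) ≤ ENNReal.ofReal ε.toReal :=
        ENNReal.ofReal_le_ofReal (hd.trans hm.le)
    _ = ε := ENNReal.ofReal_toReal hεt

theorem tendsto_upper {U : Ultrafilter ℕ} {L : ℕ → Set ℝ} (hL : ∀ n, IsUpperSet (L n)) :
    Tendsto (fun n => volume (Icc (0 : ℝ) 1 ∩ symmDiff (ulim U L) (L n))) (U : Filter ℕ)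
      (𝓝 0) := by
  have h := tendsto_lower (U := U) (L := fun n => (L n)ᶜ) (fun n => (hL n).compl)
  have h2 : ulim U (fun n => (L n)ᶜ) = (ulim U L)ᶜ := by
    ext x
    exact (notMem_ulim (U := U) (P := L) (x := x)).symm
  rw [h2] at h
  simpa only [compl_symmDiff_compl] using h

theorem tendsto_ord {U : Ultrafilter ℕ} {T : ℕ → Set ℝ}
    (hT : ∀ᶠ n in (U : Filter ℕ), (T n).OrdConnected) :
    Tendsto (fun n => volume (Icc (0 : ℝ) 1 ∩ symmDiff (ulim U T) (T n))) (U : Filter ℕ)
      (𝓝 0) := by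
  have h1 := tendsto_lower (U := U) (L := fun n => (lowerClosure (T n) : Set ℝ))
    (fun n => (lowerClosure (T n)).lower)
  have h2 := tendsto_upper (U := U) (L := fun n => (upperClosure (T n) : Set ℝ))
    (fun n => (upperClosure (T n)).upper)
  have h3 := h2.add h1
  rw [add_zero] at h3
  have heq : ∀ᶠ n in (U : Filter ℕ),
      (upperClosure (T n) : Set ℝ) ∩ (lowerClosure (T n) : Set ℝ) = T n := by
    filter_upwards [hT] with n hn
    exact ordConnected_iff_upperClosure_inter_lowerClosure.1 hn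
  have hlim : ulim U T = ulim U (fun n => (upperClosure (T n) : Set ℝ)) ∩
      ulim U (fun n => (lowerClosure (T n) : Set ℝ)) := by
    ext x
    constructor
    · intro hx
      refine ⟨mem_ulim.2 ?_, mem_ulim.2 ?_⟩
      · filter_upwards [mem_ulim.1 hx] with n hn using subset_upperClosure hn
      · filter_upwards [mem_ulim.1 hx] with n hn using subset_lowerClosure hn
    · rintro ⟨hx1, hx2⟩
      rw [mem_ulim]
      filter_upwards [mem_ulim.1 hx1, mem_ulim.1 hx2, heq] with n hn1 hn2 hn3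
      rw [← hn3]
      exact ⟨hn1, hn2⟩
  refine tendsto_of_tendsto_of_tendsto_of_le_of_le' tendsto_const_nhds h3
    (Eventually.of_forall fun n => zero_le) ?_
  filter_upwards [heq] with n hn
  refine (measure_mono ?_).trans (measure_union_le _ _)
  rintro x ⟨hx01, hx⟩
  rw [mem_symmDiff, hlim] at hx
  rw [← hn] at hx
  simp only [mem_inter_iff, mem_union, mem_symmDiff] at hx ⊢
  tauto

theorem tendsto_tc {U : Ultrafilter ℕ} {T : ℕ → Set ℝ}
    (hT : ∀ n, (T n).OrdConnected ∨ (Icc (0 : ℝ) 1 \ T n).OrdConnected) :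
    Tendsto (fun n => volume (Icc (0 : ℝ) 1 ∩ symmDiff (ulim U T) (T n))) (U : Filter ℕ)
      (𝓝 0) := by
  have h1 : ∀ᶠ n in (U : Filter ℕ), (T n).OrdConnected ∨
      (Icc (0 : ℝ) 1 \ T n).OrdConnected := Eventually.of_forall hT
  rcases Ultrafilter.eventually_or.1 h1 with h1 | h1
  · exact tendsto_ord h1
  · have h2 := tendsto_ord h1
    rw [← ulim_compl] at h2
    refine h2.congr fun n => ?_
    congr 1
    ext x
    simp only [mem_inter_iff, mem_symmDiff, Set.mem_sdiff]
    tauto

theorem tendsto_len {G : SimpleGraph V} {U : Ultrafilter ℕ} {P : ℕ → Set (V → ℝ)}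
    (hT : ∀ n, TC G (P n)) :
    Tendsto (fun n => len G (symmDiff (ulim U P) (P n))) (U : Filter ℕ) (𝓝 0) := by
  have h0 : (∑ _a : V, ∑ _b : V, (0 : ENNReal)) = 0 := by simp
  suffices h : Tendsto (fun n => len G (symmDiff (ulim U P) (P n))) (U : Filter ℕ)
      (𝓝 (∑ _a : V, ∑ _b : V, (0 : ENNReal))) by
    rw [h0] at h
    exact h
  unfold len
  refine tendsto_finsetSum _ fun a _ => tendsto_finsetSum _ fun b _ => ?_
  by_cases hab : G.Adj a b
  · simp only [if_pos hab]
    have h := tendsto_tc (U := U) (T := fun n => tr (P n) a b) (fun n => hT n a b hab)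
    refine tendsto_of_tendsto_of_tendsto_of_le_of_le tendsto_const_nhds h
      (fun n => zero_le) (fun n => measure_mono ?_)
    rintro t ⟨h01, ht⟩
    refine ⟨h01, ?_⟩
    rw [← ulim_tr]
    rw [mem_symmDiff] at ht ⊢
    rcases ht with ⟨h1, h2⟩ | ⟨h1, h2⟩
    · exact Or.inl ⟨⟨h01, h1⟩, fun h => h2 h.2⟩
    · exact Or.inr ⟨⟨h01, h1⟩, fun h => h2 h.2⟩
  · simp only [if_neg hab]
    exact tendsto_const_nhds

theorem isPiece_cake (G : SimpleGraph V) : IsPiece G (cake G) := by
  apply isPiece_of_tc Subset.rfl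
  intro a b hab
  left
  rw [ordConnected_iff]
  intro x hx y hy _ z hz
  have hz01 : z ∈ Icc (0 : ℝ) 1 := ⟨hx.1.1.trans hz.1, hz.2.trans hy.1.2⟩
  exact ⟨hz01, a, b, z, Or.inr hab, hz01, rfl⟩

/-- R19. the maximin share is attained: the set of the values of the partitions has a greatest
element as soon as it is nonempty -/
theorem R19 {V : Type} [Fintype V] [DecidableEq V] (G : SimpleGraph V) (v : Valuation G)
    (k : ℕ) (hne : (mmsSet v k).Nonempty) : IsGreatest (mmsSet v k) (sSup (mmsSet v k)) := by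
  have hfin : ∀ P : Fin k → Set (V → ℝ), BddBelow (range fun j => v.val (P j)) :=
    fun P => (finite_range _).bddBelow
  have hbdd : BddAbove (mmsSet v k) := by
    refine ⟨v.val (cake G), ?_⟩
    rintro x ⟨P, hP, rfl⟩
    rcases Nat.eq_zero_or_pos k with rfl | hk
    · rw [Real.iInf_of_isEmpty]
      exact v.nonneg _ (isPiece_cake G)
    · refine (ciInf_le (hfin P) ⟨0, hk⟩).trans ?_
      refine v.mono _ _ (hP.1 _).1 (isPiece_cake G) ?_
      rw [← hP.2.2]
      exact subset_iUnion P _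
  refine ⟨?_, fun x hx => le_csSup hbdd hx⟩
  obtain ⟨u, -, hu1, hu2⟩ := exists_seq_tendsto_sSup hne hbdd
  choose P hP huP using hu2
  let U : Ultrafilter ℕ := hyperfilter ℕ
  have hUu : Tendsto u (U : Filter ℕ) (𝓝 (sSup (mmsSet v k))) :=
    hu1.mono_left Nat.hyperfilter_le_atTop
  have hsub : ∀ n j, P n j ⊆ cake G := fun n j => by
    rw [← (hP n).2.2]
    exact subset_iUnion (P n) j
  have hTC : ∀ n j, TC G (P n j) := fun n j =>
    tc_of_preconnected (hsub n j) (preconnected_of_isConn ((hP n).1 j).2)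
  let Q : Fin k → Set (V → ℝ) := fun j => ulim U (fun n => P n j)
  have hQsub : ∀ j, Q j ⊆ cake G := by
    intro j x hx
    obtain ⟨n, hn⟩ := (mem_ulim.1 hx).exists
    exact hsub n j hn
  have hQpiece : ∀ j, IsPiece G (Q j) := fun j =>
    isPiece_of_tc (hQsub j) (ulim_tc fun n => hTC n j)
  have hQ : IsPartition G Q := by
    refine ⟨fun j => ⟨hQpiece j, ?_⟩, ?_, ?_⟩
    · exact ulim_isConn (fun n => hsub n j) (fun n => ((hP n).1 j).2)
    · intro i j hij
      rw [Set.disjoint_left]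
      intro x hxi hxj
      obtain ⟨n, hn1, hn2⟩ := ((mem_ulim.1 hxi).and (mem_ulim.1 hxj)).exists
      exact Set.disjoint_left.1 ((hP n).2.1 i j hij) hn1 hn2
    · apply Subset.antisymm (iUnion_subset hQsub)
      intro x hx
      have h : ∀ᶠ n in (U : Filter ℕ), ∃ j, x ∈ P n j := Eventually.of_forall fun n => by
        rw [← (hP n).2.2] at hx
        exact mem_iUnion.1 hx
      rw [Ultrafilter.eventually_exists_iff] at h
      obtain ⟨j, hj⟩ := h
      exact mem_iUnion.2 ⟨j, hj⟩
  have hval : ∀ j, Tendsto (fun n => v.val (P n j)) (U : Filter ℕ) (𝓝 (v.val (Q j))) := by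
    intro j
    rw [Metric.tendsto_nhds]
    intro ε hε
    obtain ⟨δ, hδ, h⟩ := v.cont (Q j) (hQpiece j) ε hε
    have hl := tendsto_len (U := U) (P := fun n => P n j) (fun n => hTC n j)
    filter_upwards [hl.eventually (gt_mem_nhds hδ)] with n hn
    rw [Real.dist_eq, abs_sub_comm]
    exact h _ ((hP n).1 j).1 hn
  have hle : sSup (mmsSet v k) ≤ ⨅ j, v.val (Q j) := by
    rcases Nat.eq_zero_or_pos k with rfl | hk
    · rw [Real.iInf_of_isEmpty]
      have : ∀ n, u n = 0 := fun n => by rw [huP n, Real.iInf_of_isEmpty]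
      refine le_of_tendsto' hUu fun n => (this n).le
    · have : Nonempty (Fin k) := ⟨⟨0, hk⟩⟩
      refine le_ciInf fun j => ?_
      refine le_of_tendsto_of_tendsto' hUu (hval j) fun n => ?_
      rw [huP n]
      exact ciInf_le (hfin (P n)) j
  have hmem : (⨅ j, v.val (Q j)) ∈ mmsSet v k := ⟨Q, hQ, rfl⟩
  have : sSup (mmsSet v k) = ⨅ j, v.val (Q j) := le_antisymm hle (le_csSup hbdd hmem)
  rw [this]
  exact hmem

end Pool.Agent.Helper85.MR
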